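import Pool.Agent.Q295.Split.Main

/-!
# Splittability of random minimum and uniform spanning trees of grid graphs

Q2 has a negative answer: for the grid graph with two rows and four columns the uniform spanning
tree is splittable into two equal halves with probability `11 / 14 = 0.7857...`, while the random
minimum spanning tree, for independent weights that are uniform on `[0,1]`, is splittable with
probability at least `248 / 315 = 0.7873...`.
-/

set_option autoImplicit false

namespace Pool.Agent.Results.MP_ddaf7c_pr.GridCounterexample

open SimpleGraph Q295.Split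

theorem result :
    pUST (pathGraph 2 □ pathGraph 4) = 11 / 14 ∧
    248 / 315 ≤ pMST (pathGraph 2 □ pathGraph 4) ∧
    ¬ ∀ a b : ℕ, 1 ≤ a → 1 ≤ b → Even (a * b) →
      pMST (pathGraph a □ pathGraph b) ≤ pUST (pathGraph a □ pathGraph b) := by
  have h1 : pUST (pathGraph 2 □ pathGraph 4) = 11 / 14 := by
    rw [grid_eq]
    exact pUST_value
  have h2 : 248 / 315 ≤ pMST (pathGraph 2 □ pathGraph 4) := by
    rw [grid_eq]
    exact pMST_lower
  refine ⟨h1, h2, fun h => ?_⟩
  have h3 := h 2 4 (by norm_num) (by norm_num) (by decide)
  rw [h1] at h3
  norm_num at h3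
  linarith

end Pool.Agent.Results.MP_ddaf7c_pr.GridCounterexample
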